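import Pool.Agent.Helper19.Qh.Stmts

set_option autoImplicit false

/-!
# Module ORBC : the cusp vectors seen from a point high in the cusp `∞`
-/

namespace Pool.Agent.Helper19.Qh

open MeasureTheory Topology

variable {m : ℕ}

theorem orbc_smul_w0 (a : Q) : a • (w0 : V m) = (a, 0, 0) := by
  refine Prod.ext ?_ (Prod.ext ?_ ?_)
  · simp [w0]
  · simp [w0]
  · simp [w0]

/-- an isotropic vector with vanishing third coordinate is a multiple of `w0` -/
theorem orbc_mul {w : V m} (hw : herm w w = 0) (h0 : w.2.2 = 0) : w = w.1 • (w0 : V m) := by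
  have h := herm_self_re w
  rw [hw, h0] at h
  simp only [Quaternion.re_zero, star_zero, mul_zero, zero_add] at h
  have h2 : w.2.1 = 0 := by
    have : ‖w.2.1‖ = 0 := by
      by_contra hne
      have : 0 < ‖w.2.1‖ ^ 2 := by positivity
      linarith
    exact norm_eq_zero.1 this
  rw [orbc_smul_w0]
  exact Prod.ext rfl (Prod.ext h2 h0)

/-- if `γ` maps `w0` to a multiple then the factor has absolute value at least one -/
theorem orbc_ge {M : AddSubgroup (V m)} (hM : IsLat M) {γ : V m ≃ₗ[Q] V m} (hγ : γ ∈ Gam M)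
    {s : Q} (hs : γ (w0 : V m) = s • w0) : 1 ≤ ‖s‖ := by
  obtain ⟨a, ha, haM⟩ := hM.cusp
  have hfin : {x : V m | x ∈ M ∧ ‖x‖ ≤ ‖a‖}.Finite := hM.fin ‖a‖
  set S : Set (V m) := {x | (x ∈ M ∧ ‖x‖ ≤ ‖a‖) ∧ ∃ t : Q, t ≠ 0 ∧ x = t • w0} with hS
  have hSf : S.Finite := hfin.subset fun x hx => hx.1
  have hne : S.Nonempty := by
    refine ⟨a • w0, ⟨?_, ?_⟩, a, ha, rfl⟩
    · rw [orbc_smul_w0]; exact haM
    · rw [norm_smul]
      have : ‖(w0 : V m)‖ = 1 := by
        simp [w0, Prod.norm_def]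
      rw [this, mul_one]
  obtain ⟨x, hxS, hmin⟩ := hSf.exists_minimalFor (fun x => ‖x‖) S hne
  obtain ⟨⟨hxM, hxa⟩, t, ht, rfl⟩ := hxS
  have hn : ∀ c : Q, ‖c • (w0 : V m)‖ = ‖c‖ := by
    intro c
    rw [norm_smul]
    have : ‖(w0 : V m)‖ = 1 := by
      simp [w0, Prod.norm_def]
    rw [this, mul_one]
  have hg : γ (t • (w0 : V m)) = (t * s) • w0 := by
    rw [map_smul, hs, smul_smul]
  have hgM : (t * s) • (w0 : V m) ∈ M := by
    rw [← hg]; exact (hγ.2 _).2 hxM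
  have hs0 : s ≠ 0 := by
    rintro rfl
    rw [zero_smul] at hs
    have h1 : γ⁻¹ (γ (w0 : V m)) = w0 := γ.symm_apply_apply _
    rw [hs, map_zero] at h1
    have := congrArg (fun x : V m => x.1) h1
    simp [w0] at this
  by_contra hlt
  push Not at hlt
  have h1 : ‖(t * s) • (w0 : V m)‖ < ‖t • (w0 : V m)‖ := by
    rw [hn, hn, norm_mul]
    have := norm_pos_iff.2 ht
    nlinarith
  have h2 : (t * s) • (w0 : V m) ∈ S :=
    ⟨⟨hgM, h1.le.trans hxa⟩, t * s, mul_ne_zero ht hs0, rfl⟩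
  have h3 := hmin h2 h1.le
  exact absurd h1 (not_lt.2 h3)

theorem st_ORBC : ST_ORBC := by
  intro m M hM
  obtain ⟨a, ha, haM⟩ := hM.cusp
  obtain ⟨c, hc, hc3⟩ := hM.third
  have hna : 0 < ‖a‖ := norm_pos_iff.2 ha
  refine ⟨(c / ‖a‖) ^ 2 / 4, by positivity, ?_⟩
  intro w hw p hp
  have hp' : 0 < hgt p := hp
  have hiso := herm_Orb hw
  obtain ⟨γ, hγ, rfl⟩ := hw
  by_cases h0 : (γ (w0 : V m)).2.2 = 0
  · left
    have e1 := orbc_mul hiso h0
    set s := (γ (w0 : V m)).1 with hs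
    have g1 := orbc_ge hM hγ e1
    have hs0 : s ≠ 0 := by
      intro h
      rw [h, norm_zero] at g1
      linarith
    have e2 : γ⁻¹ (w0 : V m) = s⁻¹ • w0 := by
      have h1 : γ⁻¹ (γ (w0 : V m)) = w0 := γ.symm_apply_apply _
      rw [e1, map_smul] at h1
      conv_rhs => rw [← h1]
      rw [smul_smul, inv_mul_cancel₀ hs0, one_smul]
    have g2 := orbc_ge hM ((Gam M).inv_mem hγ) e2
    rw [norm_inv] at g2
    have g3 : ‖s‖ ≤ 1 := by
      have hpos : 0 < ‖s‖ := norm_pos_iff.2 hs0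
      by_contra hlt
      push Not at hlt
      have := inv_lt_one_of_one_lt₀ hlt
      linarith
    have g4 : ‖s‖ = 1 := le_antisymm g3 g1
    rw [e1, uval_smul, g4, uval_w0]
    ring
  · right
    have hm : a • γ (w0 : V m) ∈ M := by
      rw [← map_smul, orbc_smul_w0]
      exact (hγ.2 _).2 haM
    have h1 := hc3 _ hm (by
      change a * (γ (w0 : V m)).2.2 ≠ 0
      exact mul_ne_zero ha h0)
    have h2 : c ≤ ‖a‖ * ‖(γ (w0 : V m)).2.2‖ := by
      have e : (a • γ (w0 : V m)).2.2 = a * (γ (w0 : V m)).2.2 := rfl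
      rw [e, norm_mul] at h1
      exact h1
    set v : V m := γ w0 with hv
    have key := rcs_id v p
    rw [hiso] at key
    simp only [Quaternion.re_zero, mul_zero, zero_add] at key
    have h3 : ‖hgt p • v.2.2 + herm v (vec p)‖ ≤ ‖herm v (vec p)‖ := by
      refine le_of_sq_le_sq ?_ (norm_nonneg _)
      have : 0 ≤ hgt p * ‖v.2.1 - v.2.2 • p.2‖ ^ 2 := by positivity
      linarith
    have h4 : hgt p * ‖v.2.2‖ ≤ 2 * ‖herm v (vec p)‖ := by
      have e : hgt p • v.2.2 =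
          (hgt p • v.2.2 + herm v (vec p)) - herm v (vec p) := by abel
      have e2 : hgt p * ‖v.2.2‖ = ‖hgt p • v.2.2‖ := by
        rw [norm_smul, Real.norm_eq_abs, abs_of_pos hp']
      rw [e2, e]
      refine (norm_sub_le _ _).trans ?_
      linarith
    have h5 : c / ‖a‖ ≤ ‖v.2.2‖ := by
      rw [div_le_iff₀ hna]
      linarith [mul_comm ‖a‖ ‖v.2.2‖]
    have h6 : c / ‖a‖ * hgt p ≤ 2 * ‖herm (vec p) v‖ := by
      rw [norm_herm_comm]
      refine le_trans ?_ h4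
      rw [mul_comm (hgt p)]
      exact mul_le_mul_of_nonneg_right h5 hp'.le
    unfold uval
    rw [le_div_iff₀ hp']
    have h7 : 0 ≤ c / ‖a‖ * hgt p := by positivity
    have h8 : (c / ‖a‖ * hgt p) ^ 2 ≤ (2 * ‖herm (vec p) v‖) ^ 2 := pow_le_pow_left₀ h7 h6 2
    nlinarith

end Pool.Agent.Helper19.Qh
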