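import Pool.Agent.Helper19.Qh.Lib

set_option autoImplicit false

/-!
# Algebra of the action on the Siegel domain
-/

namespace Pool.Agent.Helper19.Qh

open MeasureTheory Topology

variable {m : ℕ}

theorem star_hin (x y : E m) : star (hin x y) = hin y x := by
  simp only [hin, star_sum, star_mul, star_star]

theorem inner_re (x y : E m) : inner ℝ x y = (hin x y).re := by
  have h1 := map_sum (QuaternionAlgebra.reₗ (-1 : ℝ) 0 (-1)) (fun i : Fin m => x i * star (y i))
    Finset.univ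
  rw [PiLp.inner_apply]
  simp only [Quaternion.inner_def]
  exact h1.symm

theorem norm_add_sq_c (x y : E m) :
    ‖x + y‖ ^ 2 = ‖x‖ ^ 2 + 2 * (hin x y).re + ‖y‖ ^ 2 := by
  rw [norm_add_sq_real, inner_re]

theorem norm_sub_sq_c (x y : E m) :
    ‖x - y‖ ^ 2 = ‖x‖ ^ 2 - 2 * (hin x y).re + ‖y‖ ^ 2 := by
  rw [norm_sub_sq_real, inner_re]

theorem add_star_self (a : Q) : a + star a = ((2 * a.re : ℝ) : Q) := by
  rw [Quaternion.self_add_star]
  push_cast
  rfl

theorem herm_vec (p : Pt m) : herm (vec p) (vec p) = ((-(hgt p) : ℝ) : Q) := by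
  simp only [herm, vec, hgt, hin_self, star_one, mul_one, one_mul]
  rw [neg_neg, Quaternion.coe_add, ← add_star_self]
  abel

theorem herm_add_left (x y z : V m) : herm (x + y) z = herm x z + herm y z := by
  simp only [herm, Prod.fst_add, Prod.snd_add, hin_add_left, add_mul]
  abel

theorem herm_add_right (x y z : V m) : herm x (y + z) = herm x y + herm x z := by
  simp only [herm, Prod.fst_add, Prod.snd_add, hin_add_right, star_add, mul_add]
  abel

theorem herm_smul_left (c : Q) (x y : V m) : herm (c • x) y = c * herm x y := by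
  simp only [herm, Prod.smul_fst, Prod.smul_snd, smul_eq_mul, hin_smul_left, mul_add, mul_assoc]

theorem herm_smul_right (c : Q) (x y : V m) : herm x (c • y) = herm x y * star c := by
  simp only [herm, Prod.smul_fst, Prod.smul_snd, smul_eq_mul, star_mul, hin_smul_right, add_mul,
    mul_assoc]

theorem herm_neg_left (x y : V m) : herm (-x) y = -herm x y := by
  have := herm_smul_left (-1) x y
  simpa using this

theorem herm_neg_right (x y : V m) : herm x (-y) = -herm x y := by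
  have := herm_smul_right (-1) x y
  simpa using this

theorem herm_sub_left (x y z : V m) : herm (x - y) z = herm x z - herm y z := by
  rw [sub_eq_add_neg, herm_add_left, herm_neg_left, sub_eq_add_neg]

theorem herm_sub_right (x y z : V m) : herm x (y - z) = herm x y - herm x z := by
  rw [sub_eq_add_neg, herm_add_right, herm_neg_right, sub_eq_add_neg]

theorem herm_star (x y : V m) : star (herm x y) = herm y x := by
  simp only [herm, star_add, star_mul, star_star, star_hin]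
  abel

theorem re_mul_comm (a b : Q) : (a * b).re = (b * a).re := by
  simp only [Quaternion.re_mul]; ring

theorem herm_self_re (x : V m) : (herm x x).re = 2 * (x.1 * star x.2.2).re + ‖x.2.1‖ ^ 2 := by
  have h1 : (x.2.2 * star x.1).re = (x.1 * star x.2.2).re := by
    simp only [Quaternion.re_mul, Quaternion.re_star, Quaternion.imI_star, Quaternion.imJ_star,
      Quaternion.imK_star]
    ring
  simp only [herm, hin_self, Quaternion.re_add, Quaternion.re_coe, h1]
  ring

/-- the third coordinate of `g (vec p)` does not vanish -/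
theorem x3_ne {g : V m ≃ₗ[Q] V m} (hg : g ∈ UG m) {p : Pt m} (hp : p ∈ SD m) :
    (g (vec p)).2.2 ≠ 0 := by
  intro h
  have h1 := hg (vec p) (vec p)
  rw [herm_vec] at h1
  have h2 : (herm (g (vec p)) (g (vec p))).re = ‖(g (vec p)).2.1‖ ^ 2 := by
    rw [herm_self_re, h, star_zero, mul_zero, Quaternion.re_zero]; ring
  rw [h1, Quaternion.re_coe] at h2
  have h3 : 0 < hgt p := hp
  have h4 := sq_nonneg ‖(g (vec p)).2.1‖
  rw [← h2] at h4
  linarith

theorem vec_act {g : V m ≃ₗ[Q] V m} (hg : g ∈ UG m) {p : Pt m} (hp : p ∈ SD m) :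
    g (vec p) = (g (vec p)).2.2 • vec (act g p) := by
  have h := x3_ne hg hp
  refine Prod.ext ?_ (Prod.ext ?_ ?_)
  · change (g (vec p)).1 = (g (vec p)).2.2 * ((g (vec p)).2.2⁻¹ * (g (vec p)).1)
    rw [← mul_assoc, mul_inv_cancel₀ h, one_mul]
  · change (g (vec p)).2.1 = (g (vec p)).2.2 • ((g (vec p)).2.2⁻¹ • (g (vec p)).2.1)
    rw [smul_smul, mul_inv_cancel₀ h, one_smul]
  · change (g (vec p)).2.2 = (g (vec p)).2.2 * 1
    rw [mul_one]

theorem mul_coe_star (a : Q) (r : ℝ) : a * ((r : ℝ) : Q) * star a = ((r * ‖a‖ ^ 2 : ℝ) : Q) := by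
  rw [Quaternion.mul_coe_eq_smul, smul_mul_assoc, Quaternion.self_mul_star,
    Quaternion.normSq_eq_norm_mul_self, ← Quaternion.coe_smul, smul_eq_mul, sq]

theorem hgt_act {g : V m ≃ₗ[Q] V m} (hg : g ∈ UG m) {p : Pt m} (hp : p ∈ SD m) :
    hgt (act g p) = hgt p / ‖(g (vec p)).2.2‖ ^ 2 := by
  have h := x3_ne hg hp
  have h1 := hg (vec p) (vec p)
  rw [herm_vec, vec_act hg hp, herm_smul_left, herm_smul_right, herm_vec, ← mul_assoc,
    mul_coe_star, Quaternion.coe_inj] at h1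
  have h2 : ‖(g (vec p)).2.2‖ ^ 2 ≠ 0 := pow_ne_zero 2 (norm_ne_zero_iff.2 h)
  rw [eq_div_iff h2]
  linarith

theorem act_mem {g : V m ≃ₗ[Q] V m} (hg : g ∈ UG m) {p : Pt m} (hp : p ∈ SD m) :
    act g p ∈ SD m := by
  have h := x3_ne hg hp
  have h2 : 0 < ‖(g (vec p)).2.2‖ ^ 2 := pow_pos (norm_pos_iff.2 h) 2
  have h3 : 0 < hgt p := hp
  change 0 < hgt (act g p)
  rw [hgt_act hg hp]
  positivity

theorem pnt_smul {c : Q} (hc : c ≠ 0) (x : V m) : pnt (c • x) = pnt x := by
  refine Prod.ext ?_ ?_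
  · change (c * x.2.2)⁻¹ * (c * x.1) = x.2.2⁻¹ * x.1
    rw [mul_inv_rev, mul_assoc, inv_mul_cancel_left₀ hc]
  · change (c * x.2.2)⁻¹ • (c • x.2.1) = x.2.2⁻¹ • x.2.1
    rw [smul_smul, mul_inv_rev, mul_assoc, inv_mul_cancel₀ hc, mul_one]

theorem pnt_vec (p : Pt m) : pnt (vec p) = p := by
  refine Prod.ext ?_ ?_
  · change (1 : Q)⁻¹ * p.1 = p.1
    rw [inv_one, one_mul]
  · change (1 : Q)⁻¹ • p.2 = p.2
    rw [inv_one, one_smul]

theorem act_mul (g : V m ≃ₗ[Q] V m) {h : V m ≃ₗ[Q] V m} (hh : h ∈ UG m) {p : Pt m}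
    (hp : p ∈ SD m) : act (g * h) p = act g (act h p) := by
  change pnt (g (h (vec p))) = pnt (g (vec (act h p)))
  rw [vec_act hh hp, map_smul, pnt_smul (x3_ne hh hp)]

theorem act_one (p : Pt m) : act (1 : V m ≃ₗ[Q] V m) p = p := pnt_vec p

theorem act_inv_act {g : V m ≃ₗ[Q] V m} (hg : g ∈ UG m) {p : Pt m} (hp : p ∈ SD m) :
    act g⁻¹ (act g p) = p := by
  rw [← act_mul _ hg hp, inv_mul_cancel, act_one]

theorem act_act_inv {g : V m ≃ₗ[Q] V m} (hg : g ∈ UG m) {p : Pt m} (hp : p ∈ SD m) :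
    act g (act g⁻¹ p) = p := by
  rw [← act_mul _ ((UG m).inv_mem hg) hp, mul_inv_cancel, act_one]

theorem act_T (a : Q) (b : E m) (p : Pt m) :
    act (T a b) p = (p.1 - hin p.2 b + a, p.2 + b) := by
  refine Prod.ext ?_ ?_
  · change (1 : Q)⁻¹ * (p.1 - hin p.2 b + 1 * a) = p.1 - hin p.2 b + a
    rw [inv_one, one_mul, one_mul]
  · change (1 : Q)⁻¹ • (p.2 + (1 : Q) • b) = p.2 + b
    rw [inv_one, one_smul, one_smul]

theorem T_apply (a : Q) (b : E m) (x : V m) :
    T a b x = (x.1 - hin x.2.1 b + x.2.2 * a, x.2.1 + x.2.2 • b, x.2.2) := rfl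

theorem add_star_of {a : Q} {b : E m} (h : 2 * a.re + ‖b‖ ^ 2 = 0) :
    a + star a + hin b b = 0 := by
  rw [add_star_self, hin_self, ← Quaternion.coe_add, h, Quaternion.coe_zero]

theorem re_norm {a : Q} {b : E m} (h : a + star a + hin b b = 0) :
    2 * a.re + ‖b‖ ^ 2 = 0 := by
  rw [add_star_self, hin_self, ← Quaternion.coe_add] at h
  exact Quaternion.coe_injective (by rw [h, Quaternion.coe_zero])

theorem T_mem_UG {a : Q} {b : E m} (h : 2 * a.re + ‖b‖ ^ 2 = 0) : T a b ∈ UG m := by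
  intro x y
  rw [T_apply, T_apply]
  unfold herm
  dsimp only
  simp only [star_add, star_sub, star_mul, hin_add_left, hin_add_right, hin_smul_left,
    hin_smul_right, star_hin]
  have e : x.2.2 * (a + star a + hin b b) * star y.2.2 = 0 := by
    rw [add_star_of h, mul_zero, zero_mul]
  have e2 : x.2.2 * a * star y.2.2 = -(x.2.2 * star a * star y.2.2)
      - x.2.2 * hin b b * star y.2.2 := by
    rw [mul_add, mul_add, add_mul, add_mul] at e
    rw [eq_sub_iff_add_eq, eq_neg_iff_add_eq_zero, ← e]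
    abel
  simp only [add_mul, sub_mul, mul_add, mul_sub, e2]
  simp only [mul_assoc]
  abel

theorem hgt_T {a : Q} {b : E m} (h : 2 * a.re + ‖b‖ ^ 2 = 0) (p : Pt m) :
    hgt (act (T a b) p) = hgt p := by
  rw [act_T]
  simp only [hgt, norm_add_sq_c, Quaternion.re_add, Quaternion.re_sub]
  linear_combination (-1) * h

/-- products of Heisenberg translations -/
theorem T_mul (a : Q) (b : E m) (a' : Q) (b' : E m) :
    T a b * T a' b' = T (a + a' - hin b' b) (b + b') := by
  refine LinearEquiv.ext fun x => Prod.ext ?_ (Prod.ext ?_ ?_)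
  · change (T a b (T a' b' x)).1 = (T (a + a' - hin b' b) (b + b') x).1
    rw [T_apply a b, T_apply a' b', T_apply]
    simp only [hin_add_right, hin_add_left, hin_smul_left, mul_add, mul_sub]
    abel
  · change (T a b (T a' b' x)).2.1 = (T (a + a' - hin b' b) (b + b') x).2.1
    rw [T_apply a b, T_apply a' b', T_apply]
    simp only [smul_add]
    abel
  · rfl

theorem T_zero : T (0 : Q) (0 : E m) = 1 := by
  refine LinearEquiv.ext fun x => Prod.ext ?_ (Prod.ext ?_ ?_)
  · change x.1 - hin x.2.1 (0 : E m) + x.2.2 * 0 = x.1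
    have : hin x.2.1 (0 : E m) = 0 := by simp [hin]
    rw [this]; simp
  · change x.2.1 + x.2.2 • (0 : E m) = x.2.1
    simp
  · rfl

theorem T_inv {a : Q} {b : E m} (h : 2 * a.re + ‖b‖ ^ 2 = 0) :
    T (star a) (-b) = (T a b)⁻¹ := by
  rw [eq_inv_iff_mul_eq_one, T_mul]
  have h1 := add_star_of h
  have e1 : star a + a - hin b (-b) = 0 := by
    rw [hin_neg_right, sub_neg_eq_add, ← h1]
    abel
  have e2 : -b + b = 0 := by abel
  rw [e1, e2, T_zero]

theorem T_w0 (a : Q) (b : E m) : T a b w0 = w0 := by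
  refine Prod.ext ?_ (Prod.ext ?_ ?_)
  · change (1 : Q) - hin (0 : E m) b + 0 * a = 1
    simp [hin]
  · change (0 : E m) + (0 : Q) • b = 0
    simp
  · rfl

theorem uval_act {g : V m ≃ₗ[Q] V m} (hg : g ∈ UG m) (w : V m) {p : Pt m} (hp : p ∈ SD m) :
    uval w (act g p) = uval (g⁻¹ w) p := by
  have h := x3_ne hg hp
  have h1 : herm (vec p) (g⁻¹ w) = (g (vec p)).2.2 * herm (vec (act g p)) w := by
    rw [← hg (vec p) (g⁻¹ w), ← herm_smul_left, ← vec_act hg hp]
    have key : g (g⁻¹ w) = w := g.apply_symm_apply w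
    rw [key]
  unfold uval
  rw [h1, hgt_act hg hp, norm_mul, mul_pow]
  have h2 : ‖(g (vec p)).2.2‖ ≠ 0 := norm_ne_zero_iff.2 h
  have h3 : hgt p ≠ 0 := (show 0 < hgt p from hp).ne'
  field_simp

theorem uval_w0 (p : Pt m) : uval w0 p = 1 / hgt p := by
  have : herm (vec p) (w0 : V m) = 1 := by
    simp [herm, vec, w0, hin]
  unfold uval
  rw [this]
  simp

theorem uval_smul (c : Q) (w : V m) (p : Pt m) : uval (c • w) p = ‖c‖ ^ 2 * uval w p := by
  unfold uval
  rw [herm_smul_right, norm_mul, mul_pow, Quaternion.norm_star]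
  ring

theorem uval_pos {M : AddSubgroup (V m)} {w : V m} (hw : w ∈ Orb M) {p : Pt m} (hp : p ∈ SD m) :
    0 < uval w p := by
  obtain ⟨γ, hγ, rfl⟩ := hw
  have hγ' : γ⁻¹ ∈ Gam M := (Gam M).inv_mem hγ
  have h1 := uval_act hγ'.1 w0 hp
  rw [inv_inv] at h1
  rw [← h1, uval_w0]
  have : 0 < hgt (act γ⁻¹ p) := act_mem hγ'.1 hp
  positivity

theorem Orb_smul {M : AddSubgroup (V m)} {γ : V m ≃ₗ[Q] V m} (hγ : γ ∈ Gam M) {w : V m}
    (hw : w ∈ Orb M) : γ w ∈ Orb M := by
  obtain ⟨g, hg, rfl⟩ := hw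
  exact ⟨γ * g, (Gam M).mul_mem hγ hg, rfl⟩

theorem w0_mem (M : AddSubgroup (V m)) : w0 ∈ Orb M := ⟨1, (Gam M).one_mem, rfl⟩

/-- the vectors of the orbit are isotropic -/
theorem herm_Orb {M : AddSubgroup (V m)} {w : V m} (hw : w ∈ Orb M) : herm w w = 0 := by
  obtain ⟨γ, hγ, rfl⟩ := hw
  rw [hγ.1]
  simp [herm, w0, hin]

theorem herm_coords (v : V m) (p : Pt m) :
    herm v (vec p) = v.1 + hin v.2.1 p.2 + v.2.2 * star p.1 := by
  simp only [herm, vec, star_one, mul_one]

theorem norm_herm_comm (x y : V m) : ‖herm x y‖ = ‖herm y x‖ := by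
  rw [← herm_star y x, Quaternion.norm_star]

theorem q_norm_sq (a : Q) : ‖a‖ ^ 2 = a.re ^ 2 + a.imI ^ 2 + a.imJ ^ 2 + a.imK ^ 2 := by
  rw [sq, ← Quaternion.normSq_eq_norm_mul_self, Quaternion.normSq_def']

/-- identity behind the reverse Cauchy-Schwarz inequality -/
theorem rcs_id (v : V m) (p : Pt m) : hgt p * (herm v v).re + ‖herm v (vec p)‖ ^ 2 =
    hgt p * ‖v.2.1 - v.2.2 • p.2‖ ^ 2 + ‖hgt p • v.2.2 + herm v (vec p)‖ ^ 2 := by
  have e1 : ‖v.2.1 - v.2.2 • p.2‖ ^ 2
      = ‖v.2.1‖ ^ 2 - 2 * (hin v.2.1 p.2 * star v.2.2).re + ‖v.2.2‖ ^ 2 * ‖p.2‖ ^ 2 := by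
    rw [norm_sub_sq_c, hin_smul_right, norm_smul, mul_pow]
  rw [herm_coords, e1, herm_self_re]
  unfold hgt
  generalize hin v.2.1 p.2 = w
  generalize ‖v.2.1‖ ^ 2 = A
  generalize ‖p.2‖ ^ 2 = B
  generalize v.2.2 = t
  generalize v.1 = s
  generalize p.1 = z
  simp only [q_norm_sq]
  simp
  ring

/-- reverse Cauchy-Schwarz inequality -/
theorem rcs (v : V m) {p : Pt m} (hp : p ∈ SD m) :
    -(herm v v).re ≤ ‖herm (vec p) v‖ ^ 2 / hgt p := by
  have hu : 0 < hgt p := hp
  rw [le_div_iff₀ hu, norm_herm_comm]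
  have key := rcs_id v p
  have h1 : 0 ≤ hgt p * ‖v.2.1 - v.2.2 • p.2‖ ^ 2 := by positivity
  have h2 : 0 ≤ ‖hgt p • v.2.2 + herm v (vec p)‖ ^ 2 := sq_nonneg _
  nlinarith

/-- linearity of the Hermitian product in the reals -/
theorem hin_rsmul_left (c : ℝ) (x y : E m) : hin (c • x) y = c • hin x y := by
  simp only [hin, PiLp.smul_apply, smul_mul_assoc, Finset.smul_sum]

theorem hin_rsmul_right (c : ℝ) (x y : E m) : hin x (c • y) = c • hin x y := by
  simp only [hin, PiLp.smul_apply, Quaternion.star_smul, mul_smul_comm, Finset.smul_sum]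

theorem norm_hin_le (x y : E m) : ‖hin x y‖ ≤ ‖x‖ * ‖y‖ := by
  have h1 : ‖hin x y‖ ^ 2 = inner ℝ (star (hin x y) • x) y := by
    rw [inner_re, hin_smul_left, ← sq_abs, abs_norm, sq, ← Quaternion.normSq_eq_norm_mul_self,
      Quaternion.star_mul_self, Quaternion.re_coe]
  have h2 : inner ℝ (star (hin x y) • x) y ≤ ‖hin x y‖ * ‖x‖ * ‖y‖ := by
    refine (real_inner_le_norm _ _).trans ?_
    rw [norm_smul, Quaternion.norm_star]
  rcases eq_or_lt_of_le (norm_nonneg (hin x y)) with h0 | h0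
  · rw [← h0]; positivity
  · have h3 : ‖hin x y‖ * ‖hin x y‖ ≤ ‖hin x y‖ * (‖x‖ * ‖y‖) := by nlinarith
    exact le_of_mul_le_mul_left h3 h0

/-! ### Elementary facts -/

theorem continuous_re : Continuous (fun q : Q => q.re) :=
  (Quaternion.continuous_re)

theorem continuous_hgt : Continuous (hgt : Pt m → ℝ) := by
  unfold hgt
  exact ((continuous_const.mul (continuous_re.comp continuous_fst)).add
    (continuous_snd.norm.pow 2)).neg

theorem isOpen_SD : IsOpen (SD m) := isOpen_lt continuous_const continuous_hgt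

theorem measurableSet_SD : MeasurableSet (SD m) := isOpen_SD.measurableSet

theorem measurable_hgt : Measurable (hgt : Pt m → ℝ) := continuous_hgt.measurable

theorem ae_hyp_mem : ∀ᵐ p ∂(hyp m), p ∈ SD m :=
  (withDensity_absolutelyContinuous _ _).ae_le (ae_restrict_mem measurableSet_SD)

theorem measurableSet_Sieg (C a : ℝ) : MeasurableSet (Sieg m C a) := by
  have : Sieg m C a = {p : Pt m | ‖p.2‖ ≤ C} ∩ ({p : Pt m | ‖p.1.im‖ ≤ C} ∩
      {p : Pt m | a ≤ hgt p}) := rfl
  rw [this]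
  exact (measurableSet_le measurable_snd.norm measurable_const).inter
    ((measurableSet_le (Quaternion.continuous_im.comp continuous_fst).norm.measurable
      measurable_const).inter (measurableSet_le measurable_const measurable_hgt))

theorem re_sum_im (γ : Fin 3 → Q) (hγ : ∀ j, (γ j).re = 0) (x : Fin 3 → ℝ) :
    (∑ j, x j • γ j).re = 0 := by
  have h1 := map_sum (QuaternionAlgebra.reₗ (-1 : ℝ) 0 (-1)) (fun j : Fin 3 => x j • γ j)
    Finset.univ
  refine h1.trans (Finset.sum_eq_zero fun j _ => ?_)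
  change (x j • γ j).re = 0
  rw [Quaternion.re_smul, hγ, smul_zero]

theorem hgt_cellpt (β : Fin (4 * m) → E m) {γ : Fin 3 → Q} (hγ : ∀ j, (γ j).re = 0)
    (x : (Fin (4 * m) → ℝ) × (Fin 3 → ℝ)) (u : ℝ) :
    hgt (cellpt β γ x u) = u := by
  unfold hgt cellpt
  simp only [Quaternion.re_add, Quaternion.re_coe, re_sum_im γ hγ]
  ring

/-! ### The derivative of the action -/

theorem XX_add (e e' : E m) (f : Pt m → ℂ) (p : Pt m) :
    XX (e + e') f p = XX e f p + XX e' f p := by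
  unfold XX
  rw [← map_add]
  congr 1
  refine Prod.ext ?_ rfl
  change -hin (e + e') p.2 = -hin e p.2 + -hin e' p.2
  rw [hin_add_left, neg_add]

theorem XX_smul (c : ℝ) (e : E m) (f : Pt m → ℂ) (p : Pt m) :
    XX (c • e) f p = c • XX e f p := by
  unfold XX
  rw [← map_smul]
  congr 1
  refine Prod.ext ?_ rfl
  change -hin (c • e) p.2 = c • -hin e p.2
  rw [hin_rsmul_left, smul_neg]

end Pool.Agent.Helper19.Qh
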