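import Pool.Agent.Helper19.Qh.Stmts

set_option autoImplicit false

/-!
# The derivative of the action is an isometry
-/

namespace Pool.Agent.Helper19.Qh

open MeasureTheory Topology

variable {m : ℕ}

/-- the map `(a, b) ↦ (a, b, 0)` -/
noncomputable def jac_emb : Pt m →ₗ[ℝ] V m where
  toFun e := (e.1, e.2, 0)
  map_add' x y := by simp
  map_smul' c x := by simp

theorem jac_vec (p : Pt m) : vec p = jac_emb p + ((0, 0, 1) : V m) := by
  refine Prod.ext ?_ (Prod.ext ?_ ?_)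
  · change p.1 = p.1 + 0
    rw [add_zero]
  · change p.2 = p.2 + 0
    rw [add_zero]
  · change (1 : Q) = 0 + 1
    rw [zero_add]

/-- the derivative of `p ↦ g (vec p)` -/
noncomputable def jac_G (g : V m ≃ₗ[Q] V m) : Pt m →L[ℝ] V m :=
  LinearMap.toContinuousLinearMap ((g.toLinearMap.restrictScalars ℝ).comp jac_emb)

theorem jac_G_apply (g : V m ≃ₗ[Q] V m) (e : Pt m) : jac_G g e = g (e.1, e.2, 0) := rfl

theorem jac_hasG (g : V m ≃ₗ[Q] V m) (p : Pt m) :
    HasFDerivAt (fun p' : Pt m => g (vec p')) (jac_G g) p := by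
  have h1 : (fun p' : Pt m => g (vec p')) = fun p' => jac_G g p' + g ((0, 0, 1) : V m) := by
    funext p'
    rw [jac_vec p', map_add]
    rfl
  rw [h1]
  exact (jac_G g).hasFDerivAt.add_const _

/-- the derivative of the action -/
noncomputable def jac_J (g : V m ≃ₗ[Q] V m) (p : Pt m) : Pt m →ₗ[ℝ] Pt m where
  toFun e := ((g (vec p)).2.2⁻¹ * ((g (e.1, e.2, 0)).1 - (g (e.1, e.2, 0)).2.2 * (act g p).1),
    (g (vec p)).2.2⁻¹ • ((g (e.1, e.2, 0)).2.1 - (g (e.1, e.2, 0)).2.2 • (act g p).2))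
  map_add' x y := by
    have h1 : g ((x + y).1, (x + y).2, 0) = g (x.1, x.2, 0) + g (y.1, y.2, 0) := by
      rw [← map_add]
      congr 1
      simp
    rw [h1]
    refine Prod.ext ?_ ?_
    · simp only [Prod.fst_add, Prod.snd_add, add_mul, mul_add, mul_sub]
      abel
    · simp only [Prod.fst_add, Prod.snd_add, add_smul, smul_add, smul_sub]
      abel
  map_smul' c x := by
    have h1 : g ((c • x).1, (c • x).2, 0) = c • g (x.1, x.2, 0) := by
      have h2 := (g.toLinearMap.restrictScalars ℝ).map_smul c (x.1, x.2, 0)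
      refine Eq.trans ?_ h2
      change g _ = g _
      congr 1
      simp
    rw [h1]
    refine Prod.ext ?_ ?_
    · simp only [Prod.smul_fst, Prod.smul_snd, RingHom.id_apply, smul_mul_assoc, mul_sub,
        mul_smul_comm, smul_sub]
    · simp only [Prod.smul_fst, Prod.smul_snd, RingHom.id_apply, smul_assoc, smul_sub]
      simp only [smul_comm _ c]

theorem jac_has {g : V m ≃ₗ[Q] V m} (hg : g ∈ UG m) {p : Pt m} (hp : p ∈ SD m) :
    HasFDerivAt (act g) (LinearMap.toContinuousLinearMap (jac_J g p)) p := by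
  have hne := x3_ne hg hp
  have h0 := jac_hasG g p
  have h1 := h0.fst
  have h2 := h0.snd.fst
  have h3 := h0.snd.snd
  have h4 := (hasFDerivAt_inv' (𝕜 := ℝ) hne).comp p h3
  have h5 := h4.mul' h1
  have h6 := h4.smul h2
  have h7 := h5.prodMk h6
  have e1 : (g (vec p)).2.2⁻¹ * (g (vec p)).1 = (act g p).1 := rfl
  have e2 : (g (vec p)).2.2⁻¹ • (g (vec p)).2.1 = (act g p).2 := rfl
  refine HasFDerivAt.congr_fderiv h7 ?_
  refine ContinuousLinearMap.ext fun e => ?_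
  refine Prod.ext ?_ ?_
  · change (g (vec p)).2.2⁻¹ * (g (e.1, e.2, 0)).1
      + -((g (vec p)).2.2⁻¹ * (g (e.1, e.2, 0)).2.2 * (g (vec p)).2.2⁻¹) * (g (vec p)).1
      = (g (vec p)).2.2⁻¹ * ((g (e.1, e.2, 0)).1 - (g (e.1, e.2, 0)).2.2 * (act g p).1)
    rw [← e1, mul_sub, neg_mul, ← sub_eq_add_neg]
    simp only [mul_assoc]
  · change (g (vec p)).2.2⁻¹ • (g (e.1, e.2, 0)).2.1
      + -((g (vec p)).2.2⁻¹ * (g (e.1, e.2, 0)).2.2 * (g (vec p)).2.2⁻¹) • (g (vec p)).2.1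
      = (g (vec p)).2.2⁻¹ • ((g (e.1, e.2, 0)).2.1 - (g (e.1, e.2, 0)).2.2 • (act g p).2)
    rw [← e2, smul_sub, neg_smul, ← sub_eq_add_neg]
    simp only [smul_smul, mul_assoc]

/-- the frame as a linear map -/
noncomputable def jac_fr (p : Pt m) : Pt m →ₗ[ℝ] Pt m where
  toFun x := fr p x
  map_add' x y := by
    refine Prod.ext ?_ ?_
    · simp only [fr, Prod.fst_add, Prod.snd_add, hin_add_left, smul_add]
      abel
    · simp only [fr, Prod.snd_add, smul_add]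
  map_smul' c x := by
    refine Prod.ext ?_ ?_
    · simp only [fr, Prod.smul_fst, Prod.smul_snd, hin_rsmul_left, smul_sub, RingHom.id_apply]
      simp only [smul_comm _ c]
    · simp only [fr, Prod.smul_snd, RingHom.id_apply]
      simp only [smul_comm _ c]

/-- the inverse of the frame -/
noncomputable def jac_fi (p : Pt m) : Pt m →ₗ[ℝ] Pt m where
  toFun y := ((hgt p)⁻¹ • (y.1 + hin y.2 p.2), (√(hgt p))⁻¹ • y.2)
  map_add' x y := by
    refine Prod.ext ?_ ?_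
    · simp only [Prod.fst_add, Prod.snd_add, hin_add_left, smul_add]
      abel
    · simp only [Prod.snd_add, smul_add]
  map_smul' c x := by
    refine Prod.ext ?_ ?_
    · simp only [Prod.smul_fst, Prod.smul_snd, hin_rsmul_left, smul_add, RingHom.id_apply]
      simp only [smul_comm _ c]
    · simp only [Prod.smul_snd, RingHom.id_apply]
      simp only [smul_comm _ c]

theorem jac_fr_fi {p : Pt m} (hp : p ∈ SD m) (y : Pt m) : fr p (jac_fi p y) = y := by
  have h0 : 0 < hgt p := hp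
  have h1 : hgt p ≠ 0 := h0.ne'
  have h2 : √(hgt p) ≠ 0 := (Real.sqrt_pos.2 h0).ne'
  refine Prod.ext ?_ ?_
  · change hgt p • ((hgt p)⁻¹ • (y.1 + hin y.2 p.2)) - √(hgt p) • hin ((√(hgt p))⁻¹ • y.2) p.2 = y.1
    rw [hin_rsmul_left, smul_smul, smul_smul, mul_inv_cancel₀ h1, mul_inv_cancel₀ h2, one_smul,
      one_smul]
    abel
  · change √(hgt p) • ((√(hgt p))⁻¹ • y.2) = y.2
    rw [smul_smul, mul_inv_cancel₀ h2, one_smul]

theorem jac_inner_id {q : Pt m} (Y : V m) :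
    (Y.1 - Y.2.2 * q.1) + hin (Y.2.1 - Y.2.2 • q.2) q.2 = hgt q • Y.2.2 + herm Y (vec q) := by
  rw [herm_coords, hin_sub_left, hin_smul_left, hin_self]
  have h1 : hgt q • Y.2.2 = Y.2.2 * ((hgt q : ℝ) : Q) := by rw [Quaternion.mul_coe_eq_smul]
  have h2 : ((hgt q : ℝ) : Q) = -(q.1 + star q.1 + ((‖q.2‖ ^ 2 : ℝ) : Q)) := by
    rw [add_star_self, ← Quaternion.coe_add]
    unfold hgt
    rw [Quaternion.coe_neg]
  rw [h1, h2]
  simp only [mul_neg, mul_add]
  abel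

theorem jac_norm {g : V m ≃ₗ[Q] V m} (hg : g ∈ UG m) {p : Pt m} (hp : p ∈ SD m) (x : Pt m) :
    ‖(jac_fi (act g p) (jac_J g p (fr p x))).1‖ ^ 2
      + ‖(jac_fi (act g p) (jac_J g p (fr p x))).2‖ ^ 2 = ‖x.1‖ ^ 2 + ‖x.2‖ ^ 2 := by
  have hh : 0 < hgt p := hp
  have hq : 0 < hgt (act g p) := act_mem hg hp
  have hl := x3_ne hg hp
  have hl2 : ‖(g (vec p)).2.2‖ ≠ 0 := norm_ne_zero_iff.2 hl
  have hact := hgt_act hg hp
  have hvec := vec_act hg hp
  set l := (g (vec p)).2.2 with hldef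
  set q := act g p with hqdef
  obtain ⟨e, he⟩ : ∃ e, fr p x = e := ⟨_, rfl⟩
  rw [he]
  obtain ⟨v, hv⟩ : ∃ v : V m, v = (e.1, e.2, 0) := ⟨_, rfl⟩
  have hJ : jac_J g p e = (l⁻¹ * ((g v).1 - (g v).2.2 * q.1),
      l⁻¹ • ((g v).2.1 - (g v).2.2 • q.2)) := by
    rw [hv]; rfl
  rw [hJ]
  change ‖(hgt q)⁻¹ • (l⁻¹ * ((g v).1 - (g v).2.2 * q.1)
      + hin (l⁻¹ • ((g v).2.1 - (g v).2.2 • q.2)) q.2)‖ ^ 2
      + ‖(√(hgt q))⁻¹ • l⁻¹ • ((g v).2.1 - (g v).2.2 • q.2)‖ ^ 2 = _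
  rw [hin_smul_left, ← mul_add, jac_inner_id]
  have k1 := rcs_id (g v) q
  have k2 : herm (g v) (g v) = herm v v := hg v v
  have k3 : herm (g v) (vec q) = herm v (vec p) * star l⁻¹ := by
    have : vec q = l⁻¹ • g (vec p) := by
      rw [hvec, smul_smul, inv_mul_cancel₀ hl, one_smul]
    rw [this, herm_smul_right, hg]
  have k4 : (herm v v).re = hgt p * ‖x.2‖ ^ 2 := by
    have h1 : e.2 = √(hgt p) • x.2 := by rw [← he]; rfl
    rw [herm_self_re, hv]
    change 2 * (e.1 * star (0 : Q)).re + ‖e.2‖ ^ 2 = _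
    rw [star_zero, mul_zero, Quaternion.re_zero, h1, norm_smul, mul_pow, Real.norm_eq_abs, sq_abs,
      Real.sq_sqrt hh.le]
    ring
  have k5 : ‖herm v (vec p)‖ ^ 2 = hgt p ^ 2 * ‖x.1‖ ^ 2 := by
    have h1 : herm v (vec p) = hgt p • x.1 := by
      rw [herm_coords, hv]
      change e.1 + hin e.2 p.2 + 0 * star p.1 = _
      rw [← he]
      change (hgt p • x.1 - √(hgt p) • hin x.2 p.2) + hin (√(hgt p) • x.2) p.2 + 0 * star p.1 = _
      rw [hin_rsmul_left, zero_mul]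
      abel
    rw [h1, norm_smul, mul_pow, Real.norm_eq_abs, sq_abs]
  rw [k2, k3, norm_mul, mul_pow, Quaternion.norm_star, norm_inv, k4, k5] at k1
  rw [k3]
  simp only [norm_smul, norm_mul, mul_pow, norm_inv, Real.norm_eq_abs, abs_of_pos hq,
    abs_of_pos (Real.sqrt_pos.2 hq)]
  have k6 : (√(hgt q))⁻¹ ^ 2 = (hgt q)⁻¹ := by
    rw [inv_pow, Real.sq_sqrt hq.le]
  rw [k6]
  have k7 : ‖hgt q • (g v).2.2 + herm v (vec p) * star l⁻¹‖ ^ 2 =
      hgt q * (hgt p * ‖x.2‖ ^ 2) + hgt p ^ 2 * ‖x.1‖ ^ 2 * ‖l‖⁻¹ ^ 2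
        - hgt q * ‖(g v).2.1 - (g v).2.2 • q.2‖ ^ 2 := by linarith
  rw [k7, hact]
  have h3 : hgt p ≠ 0 := hh.ne'
  field_simp
  ring

theorem st_JAC : ST_JAC := by
  intro m g hg p hp
  refine ⟨LinearMap.toContinuousLinearMap (jac_J g p),
    (jac_fi (act g p)).comp ((jac_J g p).comp (jac_fr p)), jac_has hg hp, ?_, ?_⟩
  · intro x
    exact (jac_fr_fi (act_mem hg hp) _).symm
  · intro x
    exact jac_norm hg hp x

end Pool.Agent.Helper19.Qh
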