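import Pool.Agent.Helper8.Qh.MP
import Pool.Agent.Helper8.Qh.POI
import Pool.Agent.Helper11.Qh.MODE
import Pool.Agent.Helper17.Qh.CELLD
import Pool.Agent.Helper17.Qh.PARS
import Pool.Agent.Helper19.Qh.JAC
import Pool.Agent.Helper19.Qh.ORBC
import Pool.Agent.Helper26.Qh.LF
import Pool.Agent.Helper27.Qh.CELLI
import Pool.Agent.Helper28.Qh.UZ
import Pool.Agent.Helper30.Qh.DIV
import Pool.Agent.Helper37.Qh.KAP
import Pool.Agent.Helper45.Qh.GREEN
import Pool.Agent.Helper52.Qh.UNF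
import Pool.Agent.Helper55.Qh.MAIN
import Pool.Agent.Helper63.Qh.EN
import Pool.Agent.Helper64.Qh.ABEL
import Pool.Agent.Helper74.Qh.DIFF
import Pool.Agent.Helper74.Qh.WC
import Pool.Agent.Helper85.Qh.LAND
import Pool.Agent.Helper94.Qh.GD
import Pool.Agent.Helper94.Qh.STRIP

set_option autoImplicit false

/-!
# Assembly of the quaternionic frame
-/

namespace Pool.Agent.Helper19.Qh

theorem main_all : ST_MAIN := by
  have hMP : ST_MP := st_MP st_CD st_ME st_JAC
  have hGD : ST_GD := st_GD st_JAC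
  have hLF : ST_LF := st_LF st_ORBC
  have hUZ : ST_UZ := st_UZ st_CD hGD hMP hLF
  have hUN : ST_UNF := st_UNF st_CNT st_ME hMP
  exact st_MAIN (st_KAP st_CD hLF) hUN (st_STRIP hLF hUN st_CELLD st_CELLI) st_GREEN
    (st_WC st_CD hGD hMP) (st_EN hUZ st_ORBC)
    (st_POI st_MODE st_PARS (st_LAND st_DIV) st_ABEL) (st_GS st_JAC) st_CD st_ME

end Pool.Agent.Helper19.Qh
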