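import Mathlib

set_option autoImplicit false

/-!
# Quaternionic hyperbolic space of dimension `m + 1` (Siegel domain model) and lattices in
`Sp(m+1,1)`

Points are pairs `(z, ζ)` with `z` a quaternion and `ζ ∈ H^m`; quaternionic hyperbolic space is the
Siegel domain `2 Re z + |ζ|² < 0`. All vector spaces over `H` are left vector spaces.
-/

namespace Pool.Agent.Helper19.Qh

open MeasureTheory

/-- the real quaternions -/
abbrev Q := Quaternion ℝ

noncomputable instance instMQ : MeasurableSpace Q := borel Q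

instance instBQ : BorelSpace Q := ⟨rfl⟩

/-- `H^m` with its Euclidean norm -/
abbrev E (m : ℕ) := EuclideanSpace Q (Fin m)

/-- `H × H^m × H` -/
abbrev V (m : ℕ) := Q × E m × Q

/-- ambient space `H × H^m` of the Siegel domain -/
abbrev Pt (m : ℕ) := Q × E m

/-- the quaternionic Hermitian product `∑ xₖ yₖ*` -/
noncomputable def hin {m : ℕ} (x y : E m) : Q := ∑ k : Fin m, x k * star (y k)

/-- the Hermitian form `x₁ y₃* + ⟨x₂, y₂⟩ + x₃ y₁*` of signature `(m+1,1)` -/
noncomputable def herm {m : ℕ} (x y : V m) : Q :=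
  x.1 * star y.2.2 + hin x.2.1 y.2.1 + x.2.2 * star y.1

/-- the height `-(2 Re z + |ζ|²)` -/
noncomputable def hgt {m : ℕ} (p : Pt m) : ℝ := -(2 * p.1.re + ‖p.2‖ ^ 2)

/-- the Siegel domain (quaternionic hyperbolic space) -/
def SD (m : ℕ) : Set (Pt m) := {p | 0 < hgt p}

/-- the vector `(z, ζ, 1)` -/
def vec {m : ℕ} (p : Pt m) : V m := (p.1, p.2, 1)

/-- the point `(x₃⁻¹ x₁, x₃⁻¹ x₂)` -/
noncomputable def pnt {m : ℕ} (x : V m) : Pt m := (x.2.2⁻¹ * x.1, x.2.2⁻¹ • x.2.1)

/-- the projective action of a linear transformation -/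
noncomputable def act {m : ℕ} (g : V m ≃ₗ[Q] V m) (p : Pt m) : Pt m := pnt (g (vec p))

/-- the unitary group `Sp(m+1,1)` of the Hermitian form -/
def UG (m : ℕ) : Subgroup (V m ≃ₗ[Q] V m) where
  carrier := {g | ∀ x y, herm (g x) (g y) = herm x y}
  mul_mem' := by
    rintro g h hg hh x y
    rw [LinearEquiv.mul_apply, LinearEquiv.mul_apply, hg, hh]
  one_mem' := fun x y => rfl
  inv_mem' := by
    rintro g hg x y
    have key : ∀ x, g (g⁻¹ x) = x := fun x => g.apply_symm_apply x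
    rw [← hg (g⁻¹ x) (g⁻¹ y), key, key]

/-- the unitary automorphisms of an additive group `M` of vectors -/
def Gam {m : ℕ} (M : AddSubgroup (V m)) : Subgroup (V m ≃ₗ[Q] V m) where
  carrier := {g | g ∈ UG m ∧ ∀ x, g x ∈ M ↔ x ∈ M}
  mul_mem' := by
    rintro g h ⟨hg1, hg2⟩ ⟨hh1, hh2⟩
    refine ⟨(UG m).mul_mem hg1 hh1, fun x => ?_⟩
    rw [LinearEquiv.mul_apply, hg2, hh2]
  one_mem' := ⟨(UG m).one_mem, fun x => Iff.rfl⟩
  inv_mem' := by
    rintro g ⟨hg1, hg2⟩
    refine ⟨(UG m).inv_mem hg1, fun x => ?_⟩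
    have key : g (g⁻¹ x) = x := g.apply_symm_apply x
    rw [← hg2 (g⁻¹ x), key]

theorem hin_add_left {m : ℕ} (x y z : E m) : hin (x + y) z = hin x z + hin y z := by
  simp only [hin, PiLp.add_apply, add_mul, Finset.sum_add_distrib]

theorem hin_add_right {m : ℕ} (x y z : E m) : hin x (y + z) = hin x y + hin x z := by
  simp only [hin, PiLp.add_apply, star_add, mul_add, Finset.sum_add_distrib]

theorem hin_smul_left {m : ℕ} (c : Q) (x y : E m) : hin (c • x) y = c * hin x y := by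
  simp only [hin, PiLp.smul_apply, smul_eq_mul, mul_assoc, Finset.mul_sum]

theorem hin_smul_right {m : ℕ} (c : Q) (x y : E m) : hin x (c • y) = hin x y * star c := by
  simp only [hin, PiLp.smul_apply, smul_eq_mul, star_mul, ← mul_assoc, Finset.sum_mul]

theorem hin_self {m : ℕ} (x : E m) : hin x x = ((‖x‖ ^ 2 : ℝ) : Q) := by
  have h1 := map_sum (algebraMap ℝ Q) (fun i : Fin m => ‖x.ofLp i‖ ^ 2) Finset.univ
  rw [Quaternion.algebraMap_def] at h1
  rw [PiLp.norm_sq_eq_of_L2, h1]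
  refine Finset.sum_congr rfl fun i _ => ?_
  rw [Quaternion.self_mul_star, Quaternion.normSq_eq_norm_mul_self, sq]

theorem hin_neg_right {m : ℕ} (x y : E m) : hin x (-y) = -hin x y := by
  simp only [hin, PiLp.neg_apply, star_neg, mul_neg, Finset.sum_neg_distrib]

theorem hin_neg_left {m : ℕ} (x y : E m) : hin (-x) y = -hin x y := by
  simp only [hin, PiLp.neg_apply, neg_mul, Finset.sum_neg_distrib]

theorem hin_sub_left {m : ℕ} (x y z : E m) : hin (x - y) z = hin x z - hin y z := by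
  rw [sub_eq_add_neg, hin_add_left, hin_neg_left, sub_eq_add_neg]

/-- the unipotent transformation `(z, ζ) ↦ (z - ⟨ζ, b⟩ + a, ζ + b)`; it is unitary if
`2 Re a + |b|² = 0` (a Heisenberg translation) -/
noncomputable def T {m : ℕ} (a : Q) (b : E m) : V m ≃ₗ[Q] V m where
  toFun x := (x.1 - hin x.2.1 b + x.2.2 * a, x.2.1 + x.2.2 • b, x.2.2)
  map_add' x y := by
    refine Prod.ext ?_ (Prod.ext ?_ ?_)
    · simp only [Prod.fst_add, Prod.snd_add, hin_add_left, add_mul]; abel
    · simp only [Prod.fst_add, Prod.snd_add, add_smul]; abel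
    · simp
  map_smul' c x := by
    refine Prod.ext ?_ (Prod.ext ?_ ?_)
    · simp only [Prod.smul_fst, Prod.smul_snd, smul_eq_mul, RingHom.id_apply, hin_smul_left,
        mul_add, mul_sub, mul_assoc]
    · simp only [Prod.smul_fst, Prod.smul_snd, smul_eq_mul, RingHom.id_apply, smul_add, mul_smul]
    · simp
  invFun x := (x.1 + hin x.2.1 b - x.2.2 * (a + ((‖b‖ ^ 2 : ℝ) : Q)), x.2.1 - x.2.2 • b, x.2.2)
  left_inv x := by
    refine Prod.ext ?_ (Prod.ext ?_ ?_)
    · simp only [hin_add_left, hin_smul_left, hin_self, mul_add]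
      abel
    · simp
    · rfl
  right_inv x := by
    refine Prod.ext ?_ (Prod.ext ?_ ?_)
    · simp only [hin_sub_left, hin_smul_left, hin_self, mul_add]
      abel
    · simp
    · rfl

/-- directional derivative in the constant direction `e` -/
noncomputable def pd {m : ℕ} (e : Pt m) (f : Pt m → ℂ) (p : Pt m) : ℂ := fderiv ℝ f p e

/-- the quaternion units `1, i, j, k` -/
def qu : Fin 4 → Q := ![⟨1, 0, 0, 0⟩, ⟨0, 1, 0, 0⟩, ⟨0, 0, 1, 0⟩, ⟨0, 0, 0, 1⟩]

/-- the vector of `H^m` with `k`-th coordinate `q` and all other coordinates `0` -/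
noncomputable def ek {m : ℕ} (k : Fin m) (q : Q) : E m := PiLp.single 2 k q

/-- derivative along the horizontal field `(-⟨e, ζ⟩, e)`, for `e ∈ H^m` -/
noncomputable def XX {m : ℕ} (e : E m) (f : Pt m → ℂ) (p : Pt m) : ℂ :=
  fderiv ℝ f p (-hin e p.2, e)

/-- the Laplacian of quaternionic hyperbolic `(m+1)`-space, normalised so that the curvature is
between `-4` and `-1` (the powers `hgt ^ s` are eigenfunctions with eigenvalue
`4 s (s - (2 m + 3))`) -/
noncomputable def lap {m : ℕ} (f : Pt m → ℂ) (p : Pt m) : ℂ :=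
  (hgt p : ℂ) ^ 2 * ∑ r : Fin 4, pd (qu r, 0) (pd (qu r, 0) f) p
    + (4 * (m : ℂ) + 4) * (hgt p : ℂ) * pd (1, 0) f p
    + (hgt p : ℂ) * ∑ k : Fin m, ∑ r : Fin 4, XX (ek k (qu r)) (XX (ek k (qu r)) f) p

end Pool.Agent.Helper19.Qh
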