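import Pool.Agent.Helper19.Qh.Defs

set_option autoImplicit false

/-!
# Auxiliary definitions shared by the modules (not part of the final statement)
-/

namespace Pool.Agent.Helper19.Qh

open MeasureTheory

/-- hyperbolic volume `u^{-(2m+4)} dz dζ` on the Siegel domain -/
noncomputable def hyp (m : ℕ) : Measure (Pt m) :=
  (volume.restrict (SD m)).withDensity fun p => ENNReal.ofReal ((hgt p ^ (2 * m + 4))⁻¹)

/-- squared norm of the gradient in the directions tangent to the horospheres -/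
noncomputable def gh {m : ℕ} (f : Pt m → ℂ) (p : Pt m) : ℝ :=
  hgt p ^ 2 * ∑ r : Fin 3, ‖pd (qu r.succ, 0) f p‖ ^ 2
    + hgt p * ∑ k : Fin m, ∑ r : Fin 4, ‖XX (ek k (qu r)) f p‖ ^ 2

/-- squared norm of the gradient -/
noncomputable def gsq {m : ℕ} (f : Pt m → ℂ) (p : Pt m) : ℝ :=
  hgt p ^ 2 * ∑ r : Fin 4, ‖pd (qu r, 0) f p‖ ^ 2
    + hgt p * ∑ k : Fin m, ∑ r : Fin 4, ‖XX (ek k (qu r)) f p‖ ^ 2

/-- bilinear gradient product -/
noncomputable def gdot {m : ℕ} (f h : Pt m → ℂ) (p : Pt m) : ℂ :=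
  (hgt p : ℂ) ^ 2 * ∑ r : Fin 4, pd (qu r, 0) f p * pd (qu r, 0) h p
    + (hgt p : ℂ) * ∑ k : Fin m, ∑ r : Fin 4, XX (ek k (qu r)) f p * XX (ek k (qu r)) h p

/-- weak form of the eigenvalue equation `lap u = - lam u` -/
def WeakEig {m : ℕ} (lam : ℂ) (u : Pt m → ℂ) : Prop :=
  ∀ φ : Pt m → ℂ, ContDiff ℝ 1 φ → HasCompactSupport φ → tsupport φ ⊆ SD m →
    ∫ p, gdot u φ p ∂(hyp m) = lam * ∫ p, u p * φ p ∂(hyp m)

/-- the Siegel-type set `|ζ| ≤ C`, `|Im z| ≤ C`, `a ≤ height` -/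
def Sieg (m : ℕ) (C a : ℝ) : Set (Pt m) := {p | ‖p.2‖ ≤ C ∧ ‖p.1.im‖ ≤ C ∧ a ≤ hgt p}

/-- `M` is a discrete group of vectors which spans the space, contains a multiple of
`(1, 0, 0)`, and the third coordinates of which are bounded away from zero -/
structure IsLat {m : ℕ} (M : AddSubgroup (V m)) : Prop where
  cusp : ∃ a : Q, a ≠ 0 ∧ ((a, 0, 0) : V m) ∈ M
  third : ∃ c : ℝ, 0 < c ∧ ∀ x ∈ M, x.2.2 ≠ 0 → c ≤ ‖x.2.2‖
  fin : ∀ R : ℝ, {x : V m | x ∈ M ∧ ‖x‖ ≤ R}.Finite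
  span : Submodule.span Q (M : Set (V m)) = ⊤

/-- every orbit meets the Siegel-type set -/
def Covers {m : ℕ} (M : AddSubgroup (V m)) (C a : ℝ) : Prop :=
  ∀ p ∈ SD m, ∃ γ ∈ Gam M, act γ p ∈ Sieg m C a

/-- `κ` is a `C¹` partition of unity for `Gam M` supported in a Siegel-type set -/
structure Kap {m : ℕ} (M : AddSubgroup (V m)) (κ : Pt m → ℝ) (C a : ℝ) : Prop where
  pos : 0 < a
  smooth : ContDiff ℝ 1 κ
  nonneg : ∀ p, 0 ≤ κ p
  supp : ∀ p, κ p ≠ 0 → p ∈ Sieg m C a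
  sum : ∀ p ∈ SD m, HasSum (fun γ : Gam M => κ (act γ p)) 1

/-- a finite family of `C²` functions permuted by `Gam M` -/
structure Sys {m : ℕ} (M : AddSubgroup (V m)) (ι : Type) (u : ι → Pt m → ℂ) : Prop where
  smooth : ∀ i, ContDiffOn ℝ 2 (u i) (SD m)
  perm : ∀ γ ∈ Gam M, ∃ σ : Equiv.Perm ι, ∀ i, ∀ p ∈ SD m, u i (act γ p) = u (σ i) p

/-- the isotropic vector `(1, 0, 0)` belonging to the cusp `∞` -/
noncomputable def w0 {m : ℕ} : V m := (1, 0, 0)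

/-- the isotropic vectors belonging to the cusps (orbit of `w0`) -/
def Orb {m : ℕ} (M : AddSubgroup (V m)) : Set (V m) := {w | ∃ γ ∈ Gam M, w = γ w0}

/-- inverse height of `p` with respect to the cusp vector `w` -/
noncomputable def uval {m : ℕ} (w : V m) (p : Pt m) : ℝ := ‖herm (vec p) w‖ ^ 2 / hgt p

/-- `N` describes a group of Heisenberg translations `T a b`, whose `b` form the lattice with
basis `β` and whose centre consists of the `T a 0`, `a` in the lattice with basis `γ` -/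
structure Cusp {m : ℕ} (N : Q → E m → Prop) (β : Fin (4 * m) → E m) (γ : Fin 3 → Q) : Prop where
  im : ∀ j, (γ j).re = 0
  lic : LinearIndependent ℝ γ
  li : LinearIndependent ℝ β
  norm : ∀ a b, N a b → 2 * a.re + ‖b‖ ^ 2 = 0
  mul : ∀ a b a' b', N a b → N a' b' → N (a + a' - hin b' b) (b + b')
  inv : ∀ a b, N a b → N (star a) (-b)
  lat : ∀ b, (∃ a, N a b) ↔ ∃ k : Fin (4 * m) → ℤ, b = ∑ i, (k i : ℝ) • β i
  cen : ∀ a, N a 0 ↔ ∃ k : Fin 3 → ℤ, a = ∑ j, (k j : ℝ) • γ j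

/-- a point of the horosphere of height `u`, in coordinates `x` -/
noncomputable def cellpt {m : ℕ} (β : Fin (4 * m) → E m) (γ : Fin 3 → Q)
    (x : (Fin (4 * m) → ℝ) × (Fin 3 → ℝ)) (u : ℝ) : Pt m :=
  (((-(u + ‖∑ i, x.1 i • β i‖ ^ 2) / 2 : ℝ) : Q) + ∑ j, x.2 j • γ j, ∑ i, x.1 i • β i)

/-- integral over the fundamental cell at height `u`, of a nonnegative function -/
noncomputable def cellInt {m : ℕ} (β : Fin (4 * m) → E m) (γ : Fin 3 → Q) (F : Pt m → ENNReal)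
    (u : ℝ) : ENNReal :=
  ∫⁻ x in Set.Icc (0 : (Fin (4 * m) → ℝ) × (Fin 3 → ℝ)) 1, F (cellpt β γ x u)

/-- a nonzero vector which has integral real inner product with all `β i` has squared norm
`≥ δ` -/
def DualMin {m : ℕ} (β : Fin (4 * m) → E m) (δ : ℝ) : Prop :=
  ∀ ξ : E m, ξ ≠ 0 → (∀ i, ∃ k : ℤ, inner ℝ ξ (β i) = k) → δ ≤ ‖ξ‖ ^ 2

/-- a nonzero imaginary quaternion which has integral real inner product with all `γ j` has
norm `≥ s` -/
def CentMin (γ : Fin 3 → Q) (s : ℝ) : Prop :=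
  ∀ ξ : Q, ξ.re = 0 → ξ ≠ 0 → (∀ j, ∃ k : ℤ, inner ℝ ξ (γ j) = k) → s ≤ ‖ξ‖

/-- the constant of the Poincaré inequality on the horosphere of height `u` -/
noncomputable def muP (m : ℕ) (δ s u : ℝ) : ℝ :=
  min (4 * Real.pi ^ 2 * δ * u)
    (8 * Real.pi * (m : ℝ) * s * u + 4 * Real.pi ^ 2 * s ^ 2 * u ^ 2)

end Pool.Agent.Helper19.Qh
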